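import Mathlib
import Pool.Agent.R669.SwG

/-!
# The Kostrikin variety of exponent five is finitely based

The variety of the locally finite groups of exponent `5` is defined by the two identities `x ^ 5 = 1`
and `[g, z, z, z] = 1` with `z = [y, x, x, x]`.

Proof in outline.  Let `G` have exponent `5` and no nontrivial locally finite normal subgroup.

(T) If `[g, z, z, z] = 1` for all `g`, then `z = 1` (`Pool.Agent.R669.Sw.left3`): the set `X` of the
conjugates of `z` satisfies: for `a, b ∈ X` the group `⟨a, b⟩` has class at most two.  Let `s` be such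
that `⟨s, c⟩` has class at most two for all `c ∈ X`; then `⟨s, a, d⟩` has class at most three for
`a, d ∈ X`, and `X ∪ [X, X]` has the same property as `X`.  So `X` can be enlarged to a normal set
closed under commutators with this property.  The groups `⟨a, b, c⟩` with `a, b, c` in this set have
bounded class, and a module argument for exponent `5` shows that `a` commutes with its conjugates
under `⟨X⟩`.

(B) In a finite group of exponent `5` the law `[g, z, z, z] = 1` holds for `z = [y, x, x, x]`
(`Pool.Agent.Y50.FE.lemB`).

If the law in (B) holds in `G`, then (T) gives `[y, x, x, x] = 1` for all `x, y`, and (T) again gives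
`x = 1`.
-/

set_option autoImplicit false

namespace Pool.Agent.Results.MP_97c523_al.KostrikinFive

open scoped commutatorElement
open Subgroup Pool.Agent Pool.Agent.Y50.FE Pool.Agent.H32BU

universe u

/-- `G` is a locally finite group. -/
def LocFin (G : Type u) [Group G] : Prop :=
  ∀ S : Set G, S.Finite → Finite (Subgroup.closure S)

/-- The commutator `[y, x, x, x]`, where `[a, b] = a b a⁻¹ b⁻¹`. -/
def eng3 {G : Type u} [Group G] (x y : G) : G := ⁅⁅⁅y, x⁆, x⁆, x⁆

/-- The commutator `[g, z, z, z]`, where `z = [y, x, x, x]`. -/
def engz {G : Type u} [Group G] (x y g : G) : G := ⁅⁅⁅g, eng3 x y⁆, eng3 x y⁆, eng3 x y⁆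

/-- The word `[g, z, z, z]`, where `z = [y, x, x, x]`, in the free group on `x, y, g`, which are the
generators with the numbers `0, 1, 2`. -/
def word : FreeGroup (Fin 3) := engz (FreeGroup.of 0) (FreeGroup.of 1) (FreeGroup.of 2)

theorem lemB_u {G : Type u} [Group G] (h5 : ∀ g : G, g ^ 5 = 1) (x y g : G)
    (hf : Finite (closure ({x, y, g} : Set G))) :
    engz x y g = 1 := by
  have m0 : x ∈ closure ({x, y, g} : Set G) := subset_closure (by simp)
  have m1 : y ∈ closure ({x, y, g} : Set G) := subset_closure (by simp)
  have m2 : g ∈ closure ({x, y, g} : Set G) := subset_closure (by simp)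
  let s : ℕ → closure ({x, y, g} : Set G) :=
    fun e => if e = 0 then ⟨x, m0⟩ else if e = 1 then ⟨y, m1⟩ else ⟨g, m2⟩
  have hs : closure ({s 0, s 1, s 2} : Set (closure ({x, y, g} : Set G))) = ⊤ := by
    rw [← closure_closure_coe_preimage]
    congr 1
    ext x
    obtain ⟨x, hx⟩ := x
    simp [s, Subtype.ext_iff]
  have h1 := lemB (fun g => Subtype.ext (h5 _)) s hs
  exact congrArg Subtype.val h1

theorem lf_iff (G : Type u) [Group G] (h5 : ∀ x : G, x ^ 5 = 1) :
    LocFin G ↔ ∀ x y g : G, engz x y g = 1 := by
  constructor
  · intro h x y g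
    exact lemB_u h5 x y g (h _ (Set.toFinite _))
  · intro h S hS
    refine W629.finite_closure_u S hS fun Q _ f hf => ?_
    refine R669.Sw.lf_w3 (fun g => hf (by rw [map_pow, map_one]; exact h5 _)) fun x y g => hf ?_
    rw [R669.Sw.map_w3, map_one]
    exact h _ _ _

theorem lift_word {G : Type u} [Group G] (f : Fin 3 → G) :
    FreeGroup.lift f word = engz (f 0) (f 1) (f 2) := by
  simp only [word, engz, eng3, map_commutatorElement, FreeGroup.lift_apply_of]

/-- A group `G` is locally finite of exponent dividing `5` if and only if it satisfies the two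
identities `x ^ 5 = 1` and `[g, z, z, z] = 1`, where `z = [y, x, x, x]`. So the Kostrikin variety of
exponent `5` is defined by two identities in three variables. -/
theorem result (G : Type u) [Group G] :
    (LocFin G ∧ ∀ g : G, g ^ 5 = 1) ↔
      ∀ w ∈ ({FreeGroup.of 0 ^ 5, word} : Finset (FreeGroup (Fin 3))), ∀ f : Fin 3 → G,
        FreeGroup.lift f w = 1 := by
  constructor
  · rintro ⟨h, h5⟩ w hw f
    rcases Finset.mem_insert.1 hw with rfl | hw
    · rw [map_pow, h5]
    · rw [Finset.mem_singleton.1 hw, lift_word]
      exact (lf_iff G h5).1 h _ _ _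
  · intro h
    have h5 : ∀ g : G, g ^ 5 = 1 := by
      intro g
      have h1 := h _ (Finset.mem_insert_self _ _) fun _ => g
      rwa [map_pow, FreeGroup.lift_apply_of] at h1
    refine ⟨(lf_iff G h5).2 fun x y g => ?_, h5⟩
    have h1 := h _ (Finset.mem_insert_of_mem (Finset.mem_singleton_self _)) ![x, y, g]
    rw [lift_word] at h1
    exact h1

end Pool.Agent.Results.MP_97c523_al.KostrikinFive
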