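import Mathlib
import Pool.Agent.R669.Rad

/-!
# The Kostrikin variety is finitely based if the classes grow slowly

Outline.  Let `w_0 = x_0` and `w_(i+1) = [w_i, x w_i x⁻¹]` with `x = x_(i+1)`.  A periodic group with
the law `w_m = 1` is locally finite (`Pool.Agent.R669.lf_of_word`): modulo the locally finite radical
the law `w_m = 1` says that the values of `w_(m-1)` commute with their conjugates, hence their normal
closures are abelian, hence locally finite, hence trivial; so `w_(m-1) = 1` is a law modulo the
radical, and one goes on to `w_0 = x_0`.  On the other hand `w_m` lies in the term `γ_(2^(m+1)-1)` of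
the lower central series of the free group on `x_0, …, x_m`, and in the term `γ_(2^m)` of the lower
central series of the normal closure of `x_0`; so it is a law in the finite groups of exponent `p` if
the classes of these groups, or of the normal closures of their elements, grow slowly.
-/

set_option autoImplicit false

namespace Pool.Agent.Results.MP_97c523_al.SlowGrowth

open Subgroup Pool.Agent Pool.Agent.R669
open scoped commutatorElement

universe u

/-- `G` is a locally finite group. -/
def LocFin (G : Type u) [Group G] : Prop :=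
  ∀ S : Set G, S.Finite → Finite (Subgroup.closure S)

/-- The subgroup `N` is nilpotent of class at most `c`. -/
def ClassLE {G : Type u} [Group G] (N : Subgroup G) (c : ℕ) : Prop :=
  N.lowerCentralSeries c = ⊥

/-- For every finite group `F` of exponent dividing `p` which is generated by `m + 1` elements
`x_0, …, x_m`, the group `F` has class at most `2 ^ (m + 1) - 2`, or the normal closure of `x_0` in
`F` has class at most `2 ^ m - 1`. -/
def Slow (p m : ℕ) : Prop := ∀ (F : Type) [Group F] [Finite F], (∀ x : F, x ^ p = 1) →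
  ∀ a : Fin (m + 1) → F, Subgroup.closure (Set.range a) = ⊤ →
    ClassLE (⊤ : Subgroup F) (2 ^ (m + 1) - 2) ∨
      ClassLE (Subgroup.normalClosure {a 0}) (2 ^ m - 1)

/-- The words `w_0 = x_0` and `w_(i+1) = [w_i, x w_i x⁻¹]`, where `x = x_(i+1)` and
`[a, b] = a b a⁻¹ b⁻¹`. -/
def w {G : Type u} [Group G] (x : ℕ → G) : ℕ → G
  | 0 => x 0
  | i + 1 => ⁅w x i, x (i + 1) * w x i * (x (i + 1))⁻¹⁆

/-- The word `w_m` as an element of the free group on `x_0, …, x_m`. -/
def W (m : ℕ) : FreeGroup (Fin (m + 1)) :=
  w (fun i => if h : i < m + 1 then FreeGroup.of ⟨i, h⟩ else 1) m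

theorem w_eq {G : Type u} [Group G] (x : ℕ → G) (m : ℕ) : w x m = word x m := by
  induction m with
  | zero => rfl
  | succ m ih => rw [w, word, ih]

theorem lcs_normal {G : Type u} [Group G] (N : Subgroup G) [hN : N.Normal] (n : ℕ) :
    (N.lowerCentralSeries n).Normal := by
  induction n with
  | zero => exact hN
  | succ n ih => rw [Subgroup.lowerCentralSeries_succ]; infer_instance

theorem lcs_comm' {G : Type u} [Group G] (N : Subgroup G) [hN : N.Normal] (j : ℕ) :
    ∀ i, ⁅N.lowerCentralSeries i, N.lowerCentralSeries j⁆ ≤ N.lowerCentralSeries (i + j + 1) := by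
  induction j with
  | zero =>
    intro i
    rfl
  | succ j ih =>
    intro i
    have := lcs_normal N (i + (j + 1) + 1)
    rw [Subgroup.commutator_comm, Subgroup.lowerCentralSeries_succ]
    apply three
    · rw [Subgroup.commutator_comm N, ← Subgroup.lowerCentralSeries_succ]
      refine (ih (i + 1)).trans (le_of_eq ?_)
      congr 1
      omega
    · have h1 := Subgroup.commutator_mono (ih i) (le_refl N)
      rw [← Subgroup.lowerCentralSeries_succ] at h1
      refine h1.trans (le_of_eq ?_)
      congr 1

theorem word_ncl {G : Type u} [Group G] (g : ℕ → G) (m : ℕ) :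
    word g m ∈ (normalClosure {g 0}).lowerCentralSeries (2 ^ m - 1) := by
  induction m with
  | zero =>
    exact subset_normalClosure (Set.mem_singleton _)
  | succ m ih =>
    have h1 := (lcs_normal (normalClosure {g 0}) (2 ^ m - 1)).conj_mem _ ih (g (m + 1))
    have h2 := lcs_comm' _ _ _ (commutator_mem_commutator ih h1)
    rw [word]
    refine Subgroup.lowerCentralSeries_antitone _ ?_ h2
    have h3 : 1 ≤ 2 ^ m := Nat.one_le_two_pow
    rw [pow_succ]
    omega

theorem word_cl {G : Type} [Group G] [Finite G] {p m : ℕ} (hp : ∀ x : G, x ^ p = 1)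
    (h : Slow p m) (g : ℕ → G) (hg : closure (Set.range fun j : Fin (m + 1) => g j) = ⊤) :
    word g m = 1 := by
  rcases h G hp _ hg with h1 | h1
  · have h2 := word_lcs g m
    rw [show (⊤ : Subgroup G).lowerCentralSeries (2 ^ (m + 1) - 2) = ⊥ from h1] at h2
    exact mem_bot.1 h2
  · have h2 := word_ncl g m
    rw [show (normalClosure {g 0}).lowerCentralSeries (2 ^ m - 1) = ⊥ from h1] at h2
    exact mem_bot.1 h2

theorem word_lf {G : Type u} [Group G] {p m : ℕ} (hp : ∀ x : G, x ^ p = 1)
    (h : Slow p m) (hL : LocFin G) (g : ℕ → G) : word g m = 1 := by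
  let f0 : FreeGroup (Fin (m + 1)) →* G := FreeGroup.lift fun i => g i
  let Q : Type := FreeGroup (Fin (m + 1)) ⧸ f0.ker
  let f : Q →* G := QuotientGroup.kerLift f0
  have hf : Function.Injective f := QuotientGroup.kerLift_injective f0
  have hr : f0.range = closure (Set.range fun i : Fin (m + 1) => g i) :=
    FreeGroup.range_lift_eq_closure
  have hfin : Finite f0.range := by
    rw [hr]
    exact hL _ (Set.finite_range _)
  have hQ : Finite Q := Finite.of_equiv _ (QuotientGroup.quotientKerEquivRange f0).symm.toEquiv
  have hQp : ∀ x : Q, x ^ p = 1 := fun x => hf (by rw [map_pow, map_one]; exact hp _)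
  let q : ℕ → Q := fun i => if h : i < m + 1 then QuotientGroup.mk (FreeGroup.of ⟨i, h⟩) else 1
  have hq : ∀ j : Fin (m + 1), q j = QuotientGroup.mk (FreeGroup.of j) := fun j => dif_pos j.2
  have hgen : closure (Set.range fun j : Fin (m + 1) => q j) = ⊤ := by
    rw [eq_top_iff]
    rintro x -
    obtain ⟨v, rfl⟩ := QuotientGroup.mk_surjective x
    induction v using FreeGroup.induction_on with
    | C1 => exact one_mem _
    | of i => exact subset_closure ⟨i, hq i⟩
    | inv_of i hi =>
      have := inv_mem hi
      exact this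
    | mul a b ha hb =>
      have := mul_mem ha hb
      exact this
  have h1 := congrArg f (word_cl hQp h q hgen)
  rw [map_one, map_word] at h1
  rw [← h1]
  refine word_congr _ _ _ fun i hi => ?_
  have hi' : i < m + 1 := by omega
  have h2 : q i = QuotientGroup.mk (FreeGroup.of ⟨i, hi'⟩) := dif_pos hi'
  rw [h2]
  change g i = f0 (FreeGroup.of ⟨i, hi'⟩)
  simp [f0]

theorem lf_word_u (m : ℕ) (G : Type u) [Group G] (hp : ∀ x : G, IsOfFinOrder x)
    (h : ∀ g : ℕ → G, word g m = 1) : LocFin G := by
  intro S hS
  refine W629.finite_closure_u S hS fun Q _ f hf => ?_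
  have hQ : ∀ x : Q, IsOfFinOrder x := by
    intro x
    obtain ⟨k, hk, hx⟩ := isOfFinOrder_iff_pow_eq_one.1 (hp (f x))
    exact isOfFinOrder_iff_pow_eq_one.2 ⟨k, hk, hf (by rw [map_pow, hx, map_one])⟩
  exact lf_of_word hQ m fun g => hf (by rw [map_word, map_one]; exact h _)

theorem lift_W {G : Type u} [Group G] (m : ℕ) (f : Fin (m + 1) → G) :
    FreeGroup.lift f (W m) = word (fun i => if h : i < m + 1 then f ⟨i, h⟩ else 1) m := by
  rw [W, w_eq, map_word]
  congr 1
  funext i
  split_ifs with h
  · exact FreeGroup.lift_apply_of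
  · exact map_one _

theorem word_of_lift {G : Type u} [Group G] (m : ℕ)
    (h : ∀ f : Fin (m + 1) → G, FreeGroup.lift f (W m) = 1) (g : ℕ → G) : word g m = 1 := by
  have h1 := h fun j => g j
  rw [lift_W] at h1
  rw [← h1]
  refine word_congr _ _ _ fun i hi => ?_
  rw [dif_pos (by omega)]

/-- Let `p` be a prime and suppose that for some `m` each finite group of exponent `p` with
generators `x_0, …, x_m` has class at most `2 ^ (m + 1) - 2`, or the normal closure of `x_0` in it has
class at most `2 ^ m - 1`. Then the Kostrikin variety of exponent `p` is defined by the two identities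
`x ^ p = 1` and `w_m = 1`. -/
theorem result (p : ℕ) (hp : p.Prime) (m : ℕ) (h : Slow p m) (G : Type u) [Group G] :
    (LocFin G ∧ ∀ g : G, g ^ p = 1) ↔
      ∀ v ∈ ({FreeGroup.of 0 ^ p, W m} : Finset (FreeGroup (Fin (m + 1)))),
        ∀ f : Fin (m + 1) → G, FreeGroup.lift f v = 1 := by
  constructor
  · rintro ⟨hL, hG⟩ v hv f
    rcases Finset.mem_insert.1 hv with rfl | hv
    · rw [map_pow, hG]
    · rw [Finset.mem_singleton.1 hv, lift_W]
      exact word_lf hG h hL _
  · intro hv
    have hG : ∀ g : G, g ^ p = 1 := by
      intro g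
      have h1 := hv _ (Finset.mem_insert_self _ _) fun _ => g
      rwa [map_pow, FreeGroup.lift_apply_of] at h1
    refine ⟨lf_word_u m G (fun x => isOfFinOrder_iff_pow_eq_one.2 ⟨p, hp.pos, hG x⟩) ?_, hG⟩
    exact word_of_lift m (hv _ (Finset.mem_insert_of_mem (Finset.mem_singleton_self _)))

end Pool.Agent.Results.MP_97c523_al.SlowGrowth
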